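import Pool.Agent.H80.SH.Targets

/-!
# (ART) choice of the parameters
-/

namespace Pool.Agent.H19.SH

open Finset Pool.Agent.H80.SH

theorem art : T_ART := by
  intro E R C n₁ hE hR hC
  refine ⟨R * (32 + C) + 2 * E * (32 + C) + C + E + 1, n₁ + 3 * E + 2, fun n s hn hns hKs => ?_⟩
  have hs : 1 ≤ s := by
    by_contra hcon
    have h0 : s = 0 := by omega
    rw [h0, pow_zero] at hns
    omega
  obtain ⟨a, ha⟩ : ∃ a, a = 13 * s + 19 + C := ⟨_, rfl⟩
  rw [← ha]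
  obtain ⟨K, hK⟩ : ∃ K, K = R * (32 + C) + 2 * E * (32 + C) + C + E + 1 := ⟨_, rfl⟩
  rw [← hK] at hKs ⊢
  have hCs : C ≤ C * s := Nat.le_mul_of_pos_right _ hs
  have has : a ≤ (32 + C) * s := by
    rw [Nat.add_mul]
    omega
  have hRa : R * a ≤ R * (32 + C) * s := by
    rw [Nat.mul_assoc]
    exact Nat.mul_le_mul_left _ has
  have hEa : 2 * E * a ≤ 2 * E * (32 + C) * s := by
    rw [Nat.mul_assoc (2 * E)]
    exact Nat.mul_le_mul_left _ has
  have hKs' : K * s = R * (32 + C) * s + 2 * E * (32 + C) * s + C * s + E * s + s := by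
    rw [hK]
    ring
  have h2s : n ≤ 2 ^ s := hns
  have hC2 : C ≤ 2 ^ C := Nat.lt_two_pow_self.le
  have hC2s : C ≤ 2 ^ (C * s) := hC2.trans (Nat.pow_le_pow_right (by norm_num) hCs)
  have hn1 : n + 1 ≤ 2 ^ (s + 1) := by
    have h1 : 1 ≤ 2 ^ s := Nat.one_le_two_pow
    rw [pow_succ]
    omega
  refine ⟨by omega, hs, by omega, by omega, by omega, ?_, ?_, ?_, ?_, ?_, ?_, ?_, ?_⟩
  · have h1 : n / (2 * E) = n / E / 2 := by
      rw [Nat.div_div_eq_div_mul, Nat.mul_comm]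
    have h2 : a ≤ n / (2 * E) := by
      rw [Nat.le_div_iff_mul_le (by omega), Nat.mul_comm]
      omega
    rw [h1] at h2 ⊢
    omega
  · rw [Nat.le_div_iff_mul_le (by omega)]
    omega
  · calc C * n * 2 ^ (R * a) ≤ 2 ^ (C * s) * 2 ^ s * 2 ^ (R * a) :=
          Nat.mul_le_mul_right _ (Nat.mul_le_mul hC2s h2s)
      _ = 2 ^ (C * s + s + R * a) := by rw [pow_add, pow_add]
      _ ≤ _ := Nat.pow_le_pow_right (by norm_num) (by omega)
  · calc 8 * C * n * (2 ^ (6 * s + 8)) ^ 2 ≤ 2 ^ 3 * 2 ^ C * 2 ^ s * (2 ^ (6 * s + 8)) ^ 2 :=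
          Nat.mul_le_mul_right _ (Nat.mul_le_mul (Nat.mul_le_mul (by norm_num) hC2) h2s)
      _ = 2 ^ (3 + C + s + (6 * s + 8) * 2) := by
          rw [← pow_mul, ← pow_add, ← pow_add, ← pow_add]
      _ ≤ _ := Nat.pow_le_pow_right (by norm_num) (by omega)
  · refine Nat.pow_lt_pow_right (by norm_num) ?_
    have h1 : 2 * a ≤ R * a := Nat.mul_le_mul_right _ hR
    omega
  · intro k hk
    have h1 : 2 ^ s + 2 ^ (3 * s + 2) ≤ 2 ^ (3 * s + 3) := by
      have h2 : 2 ^ s ≤ 2 ^ (3 * s + 2) := Nat.pow_le_pow_right (by norm_num) (by omega)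
      have h3 : 2 ^ (3 * s + 3) = 2 ^ (3 * s + 2) * 2 := pow_succ _ _
      omega
    calc 8 * ((n + 1) ^ 2 * (2 ^ k * (2 ^ s + 2 ^ (3 * s + 2))))
        ≤ 2 ^ 3 * ((2 ^ (s + 1)) ^ 2 * (2 ^ s * 2 ^ (3 * s + 3))) :=
          Nat.mul_le_mul (by norm_num) (Nat.mul_le_mul (Nat.pow_le_pow_left hn1 2)
            (Nat.mul_le_mul (Nat.pow_le_pow_right (by norm_num) hk) h1))
      _ = 2 ^ (3 + ((s + 1) * 2 + (s + (3 * s + 3)))) := by
          rw [← pow_mul, ← pow_add, ← pow_add, ← pow_add]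
      _ = 2 ^ (6 * s + 8) := by
          congr 1
          ring
  · intro x y hx hy
    obtain ⟨p, hp⟩ : ∃ p, p = 2 ^ s := ⟨_, rfl⟩
    have hp2 : 2 ≤ p := by
      rw [hp]
      calc 2 = 2 ^ 1 := by norm_num
        _ ≤ 2 ^ s := Nat.pow_le_pow_right (by norm_num) hs
    have hT : 2 ^ (3 * s + 2) = 4 * p ^ 3 := by
      rw [hp, ← pow_mul, pow_add]
      ring
    rw [hT]
    rw [← hp] at hx hy h2s
    have h1 : 2 * x + 1 ≤ 2 ^ (p + 2) := by
      have h2 : 1 ≤ 2 ^ p := Nat.one_le_two_pow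
      rw [pow_add]
      omega
    have h2 : y ≤ 2 ^ ((p + 2) * (p * p)) := by
      calc y ≤ (2 * x + 1) ^ (n * p) := hy
        _ ≤ (2 ^ (p + 2)) ^ (n * p) := Nat.pow_le_pow_left h1 _
        _ = 2 ^ ((p + 2) * (n * p)) := (pow_mul _ _ _).symm
        _ ≤ _ := Nat.pow_le_pow_right (by norm_num)
            (Nat.mul_le_mul_left _ (Nat.mul_le_mul_right _ h2s))
    have h3 : 4 * p ^ 3 + 1 ≤ 2 ^ (4 * p ^ 3) := Nat.lt_two_pow_self
    calc 4 * (x * y * (4 * p ^ 3 + 1))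
        ≤ 2 ^ 2 * (2 ^ p * 2 ^ ((p + 2) * (p * p)) * 2 ^ (4 * p ^ 3)) :=
          Nat.mul_le_mul (by norm_num) (Nat.mul_le_mul (Nat.mul_le_mul hx h2) h3)
      _ = 2 ^ (2 + (p + (p + 2) * (p * p) + 4 * p ^ 3)) := by
          rw [pow_add 2 2, pow_add 2 (p + (p + 2) * (p * p)), pow_add 2 p]
      _ ≤ 2 ^ (2 * (4 * p ^ 3)) := by
          refine Nat.pow_le_pow_right (by norm_num) ?_
          have h4 : 2 * (p * p) ≤ p * (p * p) := Nat.mul_le_mul_right _ hp2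
          have h5 : 2 * p ≤ p * p := Nat.mul_le_mul_right _ hp2
          have h6 : 2 + (p + (p + 2) * (p * p) + 4 * p ^ 3) =
              2 + p + p * (p * p) + 2 * (p * p) + 4 * (p * (p * p)) := by ring
          have h7 : 2 * (4 * p ^ 3) = 8 * (p * (p * p)) := by ring
          rw [h6, h7]
          omega
      _ = 4 ^ (4 * p ^ 3) := by
          rw [pow_mul]
          norm_num
  · intro k hk
    have h1 : E * (n / E) ≤ n := Nat.mul_div_le _ _
    have h2 : E * k ≤ E * s := Nat.mul_le_mul_left _ hk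
    rw [Nat.mul_sub, Nat.mul_sub, Nat.mul_add, Nat.mul_one,
      show E * (2 * (n / E)) = 2 * (E * (n / E)) by ring]
    omega

end Pool.Agent.H19.SH
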