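import Pool.Agent.H80.SH.Targets

/-!
# (FAR) in most formulas every point violates many clauses
-/

namespace Pool.Agent.H19.SH

open Finset Pool.Agent.H80.SH

lemma exp_neg_le {x : ℝ} (hx : 0 ≤ x) : Real.exp (-x) ≤ 1 - x + x ^ 2 / 2 := by
  have h1 := Real.quadratic_le_exp_of_nonneg hx
  have h2 : 0 < 1 + x + x ^ 2 / 2 := by positivity
  rw [Real.exp_neg]
  refine (inv_anti₀ h2 h1).trans ?_
  rw [inv_le_iff_one_le_mul₀ h2]
  nlinarith [sq_nonneg (x ^ 2)]

/-- the moment -/
lemma moment {X α : Type} [DecidableEq X] [Fintype α] [Nonempty α] (V : α → Finset X)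
    (m w : ℕ) (ε : ℝ) (x : X)
    (hx : (univ.filter (fun c => x ∈ V c)).card * 2 ^ w = Fintype.card α) :
    ∑ F : Fin m → α, Real.exp (-ε * ((univ.filter (fun j => x ∈ V (F j))).card : ℝ)) ≤
      (Fintype.card α : ℝ) ^ m * Real.exp (-(m / 2 ^ w * (1 - Real.exp (-ε)))) := by
  classical
  have h1 : ∀ F : Fin m → α, Real.exp (-ε * ((univ.filter (fun j => x ∈ V (F j))).card : ℝ)) =
      ∏ j, (if x ∈ V (F j) then Real.exp (-ε) else 1) := by
    intro F
    rw [prod_ite, prod_const, prod_const_one, mul_one, mul_comm, Real.exp_nat_mul]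
  have h2 : ∑ F : Fin m → α, ∏ j, (if x ∈ V (F j) then Real.exp (-ε) else 1) =
      (∑ c, if x ∈ V c then Real.exp (-ε) else 1) ^ m :=
    (Fintype.sum_pow (fun c => if x ∈ V c then Real.exp (-ε) else 1) m).symm
  rw [sum_congr rfl fun F _ => h1 F, h2]
  have hN : 0 < (Fintype.card α : ℝ) := by exact_mod_cast Fintype.card_pos
  have hd : ((univ.filter (fun c => x ∈ V c)).card : ℝ) = Fintype.card α / 2 ^ w := by
    rw [eq_div_iff (by positivity)]
    exact_mod_cast hx
  have h3 : (∑ c, if x ∈ V c then Real.exp (-ε) else 1) =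
      Fintype.card α * (1 - 1 / 2 ^ w * (1 - Real.exp (-ε))) := by
    have h4 : (∑ c, if x ∈ V c then Real.exp (-ε) else (1 : ℝ)) =
        ∑ c : α, (1 - if x ∈ V c then (1 - Real.exp (-ε)) else 0) := by
      refine sum_congr rfl fun c _ => ?_
      split_ifs <;> ring
    rw [h4, sum_sub_distrib, ← sum_filter, sum_const, sum_const, card_univ, nsmul_eq_mul,
      nsmul_eq_mul, hd]
    ring
  rw [h3, mul_pow]
  refine mul_le_mul_of_nonneg_left ?_ (by positivity)
  have h5 : 0 ≤ 1 - 1 / 2 ^ w * (1 - Real.exp (-ε)) := by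
    have h6 : (0 : ℝ) ≤ ∑ c, if x ∈ V c then Real.exp (-ε) else 1 := by
      refine sum_nonneg fun c _ => ?_
      split_ifs
      · exact (Real.exp_pos _).le
      · norm_num
    rw [h3] at h6
    exact nonneg_of_mul_nonneg_right h6 hN
  calc (1 - 1 / 2 ^ w * (1 - Real.exp (-ε))) ^ m
      ≤ (Real.exp (-(1 / 2 ^ w * (1 - Real.exp (-ε))))) ^ m :=
        pow_le_pow_left₀ h5 (by
          have := Real.add_one_le_exp (-(1 / 2 ^ w * (1 - Real.exp (-ε))))
          linarith) m
    _ = _ := by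
        rw [← Real.exp_nat_mul]
        congr 1
        ring

/-- the bad formulas at a point -/
lemma bad_card {X α : Type} [DecidableEq X] [Fintype α] [Nonempty α] (V : α → Finset X)
    (C n w : ℕ) (ε : ℝ) (h0 : 0 < ε) (hC : 6 / ε ^ 2 ≤ C) (x : X)
    (hx : (univ.filter (fun c => x ∈ V c)).card * 2 ^ w = Fintype.card α)
    (B : Finset (Fin (C * n * 2 ^ w) → α))
    (hB : ∀ F ∈ B, ((univ.filter (fun j => x ∈ V (F j))).card : ℝ) < (1 - ε) * (C * n : ℝ)) :
    (B.card : ℝ) ≤ (Fintype.card α : ℝ) ^ (C * n * 2 ^ w) * Real.exp (-(3 * n)) := by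
  have h1 := moment V (C * n * 2 ^ w) w ε x hx
  have h2 : ((C * n * 2 ^ w : ℕ) : ℝ) / 2 ^ w = C * n := by
    push_cast
    field_simp
  rw [h2] at h1
  have h3 : (B.card : ℝ) * Real.exp (-ε * ((1 - ε) * (C * n : ℝ))) ≤
      (Fintype.card α : ℝ) ^ (C * n * 2 ^ w) * Real.exp (-(C * n * (1 - Real.exp (-ε)))) := by
    refine le_trans ?_ h1
    calc (B.card : ℝ) * Real.exp (-ε * ((1 - ε) * (C * n : ℝ)))
        = ∑ _F ∈ B, Real.exp (-ε * ((1 - ε) * (C * n : ℝ))) := by
          rw [sum_const, nsmul_eq_mul]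
      _ ≤ ∑ F ∈ B, Real.exp (-ε * ((univ.filter (fun j => x ∈ V (F j))).card : ℝ)) := by
          refine sum_le_sum fun F hF => Real.exp_le_exp.2 ?_
          have := hB F hF
          nlinarith
      _ ≤ _ := sum_le_sum_of_subset_of_nonneg (subset_univ _) fun F _ _ => (Real.exp_pos _).le
  have h4 : (B.card : ℝ) ≤ (Fintype.card α : ℝ) ^ (C * n * 2 ^ w) *
      (Real.exp (-(C * n * (1 - Real.exp (-ε)))) * Real.exp (ε * ((1 - ε) * (C * n : ℝ)))) := by
    have h5 := mul_le_mul_of_nonneg_right h3 (Real.exp_pos (ε * ((1 - ε) * (C * n : ℝ)))).le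
    rw [mul_assoc, ← Real.exp_add] at h5
    have h6 : -ε * ((1 - ε) * (C * n : ℝ)) + ε * ((1 - ε) * (C * n : ℝ)) = 0 := by ring
    rw [h6, Real.exp_zero, mul_one] at h5
    refine h5.trans (le_of_eq ?_)
    exact mul_assoc _ _ _
  refine h4.trans (mul_le_mul_of_nonneg_left ?_ (by positivity))
  rw [← Real.exp_add]
  refine Real.exp_le_exp.2 ?_
  have h5 := exp_neg_le h0.le
  have h6 : 6 ≤ C * ε ^ 2 := by
    rwa [div_le_iff₀ (by positivity)] at hC
  have hCn : (0 : ℝ) ≤ C * n := by positivity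
  have h7 : (C * n : ℝ) * (ε ^ 2 / 2) ≤ C * n * (1 - Real.exp (-ε) - ε * (1 - ε)) :=
    mul_le_mul_of_nonneg_left (by nlinarith) hCn
  have h8 : (3 * n : ℝ) ≤ (C * n : ℝ) * (ε ^ 2 / 2) := by
    have h9 : (n : ℝ) * 6 ≤ n * (C * ε ^ 2) := mul_le_mul_of_nonneg_left h6 (by positivity)
    nlinarith
  nlinarith

theorem far : T_FAR := by
  classical
  intro ε h0
  rcases le_or_gt 1 ε with h1 | h1
  · refine ⟨1, le_refl 1, fun X α _ _ _ _ _ V n w _ _ _ => ⟨∅, by simp, fun F _ x => ?_⟩⟩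
    refine le_trans (mul_nonpos_of_nonpos_of_nonneg (by linarith) (by positivity)) ?_
    positivity
  · obtain ⟨C, hC⟩ := exists_nat_ge (6 / ε ^ 2)
    have hC1 : 1 ≤ C := by
      have h2 : (0 : ℝ) < C := lt_of_lt_of_le (by positivity) hC
      exact_mod_cast h2
    refine ⟨C, hC1, fun X α _ _ _ _ _ V n w hn hX hV => ?_⟩
    let Bx : X → Finset (Fin (C * n * 2 ^ w) → α) := fun x =>
      univ.filter fun F => ((univ.filter (fun j => x ∈ V (F j))).card : ℝ) <
        (1 - ε) * (C * n : ℝ)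
    refine ⟨univ.biUnion Bx, ?_, fun F hF x => ?_⟩
    · have h2 : ((univ.biUnion Bx).card : ℝ) ≤ 2 ^ n *
          ((Fintype.card α : ℝ) ^ (C * n * 2 ^ w) * Real.exp (-(3 * n))) := by
        have h3 : ((univ.biUnion Bx).card : ℝ) ≤ ∑ x, ((Bx x).card : ℝ) := by
          exact_mod_cast card_biUnion_le
        refine h3.trans ?_
        refine (sum_le_sum fun x _ => bad_card V C n w ε h0 hC x (hV x) (Bx x)
          fun F hF => (mem_filter.1 hF).2).trans ?_
        rw [sum_const, card_univ, hX, nsmul_eq_mul]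
        push_cast
        exact le_refl _
      have h3 : 4 * (2 : ℝ) ^ n * Real.exp (-(3 * n)) ≤ 1 := by
        rw [Real.exp_neg, ← div_eq_mul_inv, div_le_one (Real.exp_pos _)]
        have h4 : (8 : ℝ) ≤ Real.exp 3 := by
          have h5 := Real.exp_one_gt_d9
          have h6 : Real.exp 3 = Real.exp 1 ^ 3 := by
            rw [← Real.exp_nat_mul]
            norm_num
          rw [h6]
          calc (8 : ℝ) ≤ (2.7182818283 : ℝ) ^ 3 := by norm_num
            _ ≤ _ := pow_le_pow_left₀ (by norm_num) h5.le 3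
        calc 4 * (2 : ℝ) ^ n ≤ 4 ^ n * 2 ^ n := by
              refine mul_le_mul_of_nonneg_right ?_ (by positivity)
              calc (4 : ℝ) = 4 ^ 1 := by norm_num
                _ ≤ 4 ^ n := pow_le_pow_right₀ (by norm_num) hn
          _ = 8 ^ n := by
              rw [← mul_pow]
              norm_num
          _ ≤ Real.exp 3 ^ n := pow_le_pow_left₀ (by norm_num) h4 n
          _ = Real.exp (3 * n) := by
              rw [← Real.exp_nat_mul]
              congr 1
              ring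
      have h4 : (4 * (univ.biUnion Bx).card : ℝ) ≤ (Fintype.card α : ℝ) ^ (C * n * 2 ^ w) := by
        calc (4 * (univ.biUnion Bx).card : ℝ)
            ≤ 4 * (2 ^ n * ((Fintype.card α : ℝ) ^ (C * n * 2 ^ w) * Real.exp (-(3 * n)))) :=
              mul_le_mul_of_nonneg_left h2 (by norm_num)
          _ = (Fintype.card α : ℝ) ^ (C * n * 2 ^ w) *
              (4 * (2 : ℝ) ^ n * Real.exp (-(3 * n))) := by ring
          _ ≤ (Fintype.card α : ℝ) ^ (C * n * 2 ^ w) * 1 :=
              mul_le_mul_of_nonneg_left h3 (by positivity)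
          _ = _ := mul_one _
      exact_mod_cast h4
    · by_contra hcon
      exact hF (mem_biUnion.2 ⟨x, mem_univ _, mem_filter.2 ⟨mem_univ _, not_le.1 hcon⟩⟩)

end Pool.Agent.H19.SH
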