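import Pool.Agent.H80.SH.Targets

/-!
# (PHS) one phase
-/

namespace Pool.Agent.H19.SH

open Finset Pool.Agent.H80.SH

theorem phs (hWLK : T_WLK) : T_PHS := by
  intro X ι _ _ _ _ V L S D k q g H T M R cl hG hch hden hg v t b hb hkt hM hH
  have hK0 : cut V (R.A v) (cl v) ∩ univ = cut V (R.A v) (cl v) := inter_univ _
  have hgb : 2 ^ g ≤ (cut V (R.A v) (cl v)).card :=
    (Nat.pow_le_pow_right (by norm_num) (by omega)).trans hb
  obtain ⟨W, hWK, hW, hcard⟩ := hWLK X ι V L S D k q g H T M R cl hG hch v t v 0 univ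
    (mem_singleton_self _) (by omega) (by rw [hK0]; exact fun x hx => (@mem_filter _ _ (_) _ _).1 hx |>.1)
    (by rw [hK0]; exact hgb)
  rw [hK0] at hWK hcard
  obtain ⟨K, hK⟩ : ∃ K, K = cut V (R.A v) (cl v) := ⟨_, rfl⟩
  rw [← hK] at hb hgb hWK hcard ⊢
  have hpot : pot V H K = 0 := by
    unfold pot
    rw [hK, hden v (hK ▸ hgb), sum_empty]
  have hT : 0 < T := lt_of_le_of_lt (Nat.zero_le _) (hG (R.A v) (R.mem v) (cl v) (hch v)).1
  have hH0 : 0 < H := by
    refine lt_of_lt_of_le ?_ hH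
    positivity
  rw [hpot, Nat.mul_zero, Nat.mul_zero, Nat.add_zero] at hcard
  have h1 : 8 * ((K \ W).card) ≤ 8 * (2 ^ (k * t) * 2 ^ g) + K.card := by
    refine Nat.le_of_mul_le_mul_left ?_ hH0
    calc H * (8 * (K \ W).card) = 8 * (H * (K \ W).card) := by ring
      _ ≤ 8 * (H * (2 ^ (k * t) * 2 ^ g) + (t + 1) ^ 2 * (2 ^ k * (q + T)) * K.card) :=
          Nat.mul_le_mul_left _ hcard
      _ = H * (8 * (2 ^ (k * t) * 2 ^ g)) + 8 * ((t + 1) ^ 2 * (2 ^ k * (q + T))) * K.card := by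
          ring
      _ ≤ H * (8 * (2 ^ (k * t) * 2 ^ g)) + H * K.card :=
          Nat.add_le_add_left (Nat.mul_le_mul_right _ hH) _
      _ = _ := by ring
  have h2 : 8 * (2 ^ (k * t) * 2 ^ g) ≤ K.card := by
    refine le_trans ?_ hb
    have h3 : 8 * (2 ^ (k * t) * 2 ^ g) = 2 ^ (3 + (k * t + g)) := by
      rw [pow_add, pow_add]
      norm_num
    rw [h3]
    exact Nat.pow_le_pow_right (by norm_num) (by omega)
  have h3 : (K \ W).card + W.card = K.card := card_sdiff_add_card_eq_card hWK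
  have h4 : K.card ≤ 2 * W.card := by omega
  have hKpos : 0 < K.card := lt_of_lt_of_le (by positivity) hb
  -- the lines reached
  obtain ⟨I, hI⟩ : ∃ I : Finset (Fin S), I = univ.filter (fun u' => R.dep u' + t ≤ R.dep v) :=
    ⟨_, rfl⟩
  have hWI : W ⊆ I.biUnion (fun u' => cut V (R.A u') (cl u')) := by
    intro z hz
    obtain ⟨u', h5, h6⟩ := hW z hz
    rw [mem_biUnion]
    exact ⟨u', by rw [hI]; exact mem_filter.2 ⟨mem_univ _, h5⟩, h6⟩
  have hIne : I.Nonempty := by
    rw [nonempty_iff_ne_empty]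
    rintro h5
    rw [h5, biUnion_empty, subset_empty] at hWI
    rw [hWI, card_empty] at h4
    omega
  obtain ⟨u', hu', hmax⟩ := I.exists_max_image (fun u' => (cut V (R.A u') (cl u')).card) hIne
  refine ⟨u', ?_, ?_⟩
  · rw [hI] at hu'
    exact (mem_filter.1 hu').2
  · have h5 : W.card ≤ I.card * (cut V (R.A u') (cl u')).card :=
      (card_le_card hWI).trans (card_biUnion_le_card_mul _ _ _ hmax)
    have h6 : I.card ≤ S := by
      have h7 := card_le_univ I
      rwa [Fintype.card_fin] at h7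
    calc K.card ≤ 2 * W.card := h4
      _ ≤ 2 * (S * (cut V (R.A u') (cl u')).card) :=
          Nat.mul_le_mul_left _ (h5.trans (Nat.mul_le_mul_right _ h6))
      _ = _ := by ring

end Pool.Agent.H19.SH
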