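import Pool.Agent.H80.SH.Targets

/-!
# (SUM) iteration of the phases
-/

namespace Pool.Agent.H19.SH

open Finset Pool.Agent.H80.SH

theorem sum (hPHS : T_PHS) : T_SUM := by
  intro X ι _ _ _ _ V L S D n k q g H T M el R cl hG hch hden hg hk hS hM hH N
  induction N using Nat.strong_induction_on with
  | _ N ih =>
  intro v hN hcard
  rcases Nat.eq_zero_or_pos N with h0 | hpos
  · subst h0
    rw [Nat.zero_mul]
    exact Nat.zero_le _
  obtain ⟨k', rfl⟩ : ∃ k', k = k' + 1 := ⟨k - 1, by omega⟩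
  rw [Nat.add_sub_cancel] at hcard
  obtain ⟨t, ht⟩ : ∃ t, t = (N + k') / (k' + 1) := ⟨_, rfl⟩
  have h1 : (k' + 1) * t ≤ N + k' := by
    rw [ht]
    exact Nat.mul_div_le _ _
  have h2 : N ≤ (k' + 1) * t := by
    have h3 : N + k' < (k' + 1) * (t + 1) := by
      rw [ht]
      exact Nat.lt_mul_div_succ _ (Nat.succ_pos _)
    rw [Nat.mul_add, Nat.mul_one] at h3
    omega
  have h3 : t ≤ N := by
    by_contra hcon
    have h4 : (k' + 1) * (N + 1) ≤ (k' + 1) * t := Nat.mul_le_mul_left _ (by omega)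
    have h5 : (k' + 1) * (N + 1) = k' * N + N + k' + 1 := by ring
    have h6 : N ≤ k' * N + N := Nat.le_add_left _ _
    omega
  have htn : t ≤ n := h3.trans hN
  obtain ⟨u', hu1, hu2⟩ := hPHS X ι V L S D (k' + 1) q g H T M R cl hG hch hden hg v t
    (N + 2 * g + k') hcard (by omega) ((Nat.mul_le_mul_right _ htn).trans hM)
    (le_trans (Nat.mul_le_mul_left _ (Nat.mul_le_mul_right _
      (Nat.pow_le_pow_left (Nat.succ_le_succ htn) 2))) hH)
  have hkt : N ≤ (k' + 1) * R.dep v := h2.trans (Nat.mul_le_mul_left _ (by omega))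
  rcases Nat.lt_or_ge el N with hel | hel
  · have hel1 : 1 ≤ el := by
      by_contra hcon
      have h4 : el = 0 := by omega
      rw [h4, pow_zero] at hS
      have h5 := v.2
      omega
    obtain ⟨N', rfl⟩ : ∃ N', N = N' + el := ⟨N - el, by omega⟩
    have h4 : 2 ^ (N' + 2 * g + k') ≤ (cut V (R.A u') (cl u')).card := by
      have h5 : 2 ^ el * 2 ^ (N' + 2 * g + k') ≤ 2 ^ el * (cut V (R.A u') (cl u')).card := by
        rw [← pow_add]
        calc 2 ^ (el + (N' + 2 * g + k')) = 2 ^ (N' + el + 2 * g + k') := by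
              congr 1
              omega
          _ ≤ _ := hcard
          _ ≤ _ := hu2
          _ ≤ _ := Nat.mul_le_mul_right _ hS
      exact Nat.le_of_mul_le_mul_left h5 (by positivity)
    have h5 := ih N' (by omega) u' (by omega) (by rwa [Nat.add_sub_cancel])
    have h6 : (k' + 1) * (R.dep u' + t) ≤ (k' + 1) * R.dep v := Nat.mul_le_mul_left _ hu1
    have h7 : 2 * el * ((k' + 1) * R.dep u' + (N' + el)) ≤ 2 * el * ((k' + 1) * R.dep v) := by
      refine Nat.mul_le_mul_left _ (le_trans ?_ h6)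
      rw [Nat.mul_add]
      exact Nat.add_le_add_left h2 _
    calc (N' + el) * (N' + el + el) = N' * (N' + el) + 2 * el * (N' + el) := by ring
      _ ≤ 2 * el * ((k' + 1) * R.dep u') + 2 * el * (N' + el) := Nat.add_le_add_right h5 _
      _ = 2 * el * ((k' + 1) * R.dep u' + (N' + el)) := by ring
      _ ≤ _ := h7
  · calc N * (N + el) ≤ N * (el + el) := Nat.mul_le_mul_left _ (by omega)
      _ = 2 * el * N := by ring
      _ ≤ _ := Nat.mul_le_mul_left _ hkt

end Pool.Agent.H19.SH
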